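import Mathlib
import Pool.Agent.Q10.SkewLaurent

/-!
# Skew Laurent series rings over right semidistributive right Artinian rings
-/

open MulOpposite

namespace Pool.Agent.Results.MP_d4f5ca_al.NotSemidistributive

/-- A module is distributive if its lattice of submodules is distributive. -/
def IsDistributiveModule (S M : Type*) [Ring S] [AddCommGroup M] [Module S M] : Prop :=
  ∀ F G H : Submodule S M, F ⊓ (G ⊔ H) = (F ⊓ G) ⊔ (F ⊓ H)

/-- A module is semidistributive if it is the (internal) direct sum of a set of distributive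
submodules. -/
def IsSemidistributiveModule (S M : Type*) [Ring S] [AddCommGroup M] [Module S M] : Prop :=
  ∃ 𝒩 : Set (Submodule S M), sSupIndep 𝒩 ∧ sSup 𝒩 = ⊤ ∧ ∀ N ∈ 𝒩, IsDistributiveModule S N

/-- A ring `R` is right semidistributive if the right regular module `R_R` is semidistributive. -/
def RightSemidistributive (R : Type*) [Ring R] : Prop := IsSemidistributiveModule Rᵐᵒᵖ R

section General

variable {S M : Type*} [Ring S] [AddCommGroup M] [Module S M]

theorem criterion (h : IsDistributiveModule S M) (u v : M) :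
    ∃ r s : S, r + s = 1 ∧ (∃ w : S, r • u = w • v) ∧ (∃ w : S, s • v = w • u) := by
  have hu : u ∈ Submodule.span S {u} ⊓ (Submodule.span S {v} ⊔ Submodule.span S {u + v}) := by
    refine ⟨Submodule.mem_span_singleton_self u, ?_⟩
    have : u = -v + (u + v) := by abel
    rw [this]
    exact Submodule.add_mem_sup (neg_mem (Submodule.mem_span_singleton_self v))
      (by rw [← this]; exact Submodule.mem_span_singleton_self _)
  rw [h] at hu
  obtain ⟨p, ⟨-, hp2⟩, q, ⟨hq1, hq2⟩, hpq⟩ := Submodule.mem_sup.mp hu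
  obtain ⟨w, hw⟩ := Submodule.mem_span_singleton.mp hp2
  obtain ⟨t, ht⟩ := Submodule.mem_span_singleton.mp hq1
  obtain ⟨s, hs⟩ := Submodule.mem_span_singleton.mp hq2
  refine ⟨1 - s, s, by abel, ⟨w + s, ?_⟩, ⟨t - s, ?_⟩⟩
  · rw [sub_smul, one_smul, add_smul, hw]
    have : u = p + (s • u + s • v) := by rw [← smul_add, hs, hpq]
    nth_rewrite 1 [this]
    abel
  · rw [sub_smul, ht, ← hs, smul_add]; abel

theorem of_criterion
    (h : ∀ u v : M, ∃ r s : S, r + s = 1 ∧ (∃ w : S, r • u = w • v) ∧ (∃ w : S, s • v = w • u)) :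
    IsDistributiveModule S M := by
  intro F G H
  apply le_antisymm
  · rintro x ⟨hxF, hx⟩
    obtain ⟨u, hu, v, hv, rfl⟩ := Submodule.mem_sup.mp hx
    obtain ⟨r, s, hrs, ⟨w, hw⟩, ⟨w', hw'⟩⟩ := h u v
    have h1 : u + v = s • (u + v) + r • (u + v) := by
      rw [← add_smul, add_comm s r, hrs, one_smul]
    rw [h1]
    apply Submodule.add_mem_sup
    · refine ⟨F.smul_mem _ hxF, ?_⟩
      rw [smul_add, hw']
      exact G.add_mem (G.smul_mem _ hu) (G.smul_mem _ hu)
    · refine ⟨F.smul_mem _ hxF, ?_⟩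
      rw [smul_add, hw]
      exact H.add_mem (H.smul_mem _ hv) (H.smul_mem _ hv)
  · exact sup_le (inf_le_inf_left _ le_sup_left) (inf_le_inf_left _ le_sup_right)

/-- In a nonzero right semidistributive ring there are a right ideal `N` that is distributive as a
module and a nonzero idempotent `g ∈ N`. -/
theorem exists_idem {R : Type*} [Ring R] [Nontrivial R] (h : RightSemidistributive R) :
    ∃ N : Submodule Rᵐᵒᵖ R, IsDistributiveModule Rᵐᵒᵖ N ∧ ∃ g ∈ N, g ≠ 0 ∧ g * g = g := by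
  obtain ⟨𝒩, hind, htop, hdist⟩ := h
  obtain ⟨N, hN, hN0⟩ : ∃ N ∈ 𝒩, N ≠ ⊥ := by
    by_contra hno
    push Not at hno
    have : sSup 𝒩 = ⊥ := sSup_eq_bot.mpr hno
    rw [htop] at this
    exact top_ne_bot this
  refine ⟨N, hdist N hN, ?_⟩
  set K := sSup (𝒩 \ {N}) with hK
  have hdisj : Disjoint N K := hind hN
  have hsup : N ⊔ K = ⊤ := by
    rw [eq_top_iff, ← htop]
    apply sSup_le
    intro L hL
    by_cases hLN : L = N
    · rw [hLN]; exact le_sup_left
    · exact le_sup_of_le_right (le_sSup ⟨hL, hLN⟩)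
  have h1 : (1 : R) ∈ N ⊔ K := by rw [hsup]; trivial
  obtain ⟨g, hg, k, hk, hgk⟩ := Submodule.mem_sup.mp h1
  have key : ∀ y ∈ N, y = g * y := by
    intro y hy
    have hz : y - g * y = k * y := by
      have : y = (g + k) * y := by rw [hgk, one_mul]
      nth_rewrite 1 [this]
      rw [add_mul]; abel
    have hz1 : y - g * y ∈ N := N.sub_mem hy (N.smul_mem (op y) hg)
    have hz2 : y - g * y ∈ K := by rw [hz]; exact K.smul_mem (op y) hk
    have := (Submodule.disjoint_def.mp hdisj) _ hz1 hz2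
    exact sub_eq_zero.mp this
  refine ⟨g, hg, ?_, (key g hg).symm⟩
  rintro rfl
  apply hN0
  rw [eq_bot_iff]
  intro y hy
  rw [key y hy, zero_mul]
  exact Submodule.zero_mem _

end General

/-! ### The coefficient ring -/

/-- The ring of all `D + ε M` with `D` a diagonal and `M` an arbitrary `2 × 2` matrix over the
field with two elements and `ε² = 0`. -/
@[ext] structure T where
  d1 : ZMod 2
  d2 : ZMod 2
  m11 : ZMod 2
  m12 : ZMod 2
  m21 : ZMod 2
  m22 : ZMod 2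

namespace T

instance : Add T := ⟨fun a b => ⟨a.d1 + b.d1, a.d2 + b.d2, a.m11 + b.m11, a.m12 + b.m12,
  a.m21 + b.m21, a.m22 + b.m22⟩⟩
instance : Neg T := ⟨fun a => ⟨-a.d1, -a.d2, -a.m11, -a.m12, -a.m21, -a.m22⟩⟩
instance : Zero T := ⟨⟨0, 0, 0, 0, 0, 0⟩⟩
instance : One T := ⟨⟨1, 1, 0, 0, 0, 0⟩⟩
instance : Mul T := ⟨fun a b => ⟨a.d1 * b.d1, a.d2 * b.d2, a.d1 * b.m11 + a.m11 * b.d1,
  a.d1 * b.m12 + a.m12 * b.d2, a.d2 * b.m21 + a.m21 * b.d1, a.d2 * b.m22 + a.m22 * b.d2⟩⟩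

@[simp] theorem mul_d1 (a b : T) : (a * b).d1 = a.d1 * b.d1 := rfl
@[simp] theorem mul_d2 (a b : T) : (a * b).d2 = a.d2 * b.d2 := rfl
@[simp] theorem mul_m11 (a b : T) : (a * b).m11 = a.d1 * b.m11 + a.m11 * b.d1 := rfl
@[simp] theorem mul_m12 (a b : T) : (a * b).m12 = a.d1 * b.m12 + a.m12 * b.d2 := rfl
@[simp] theorem mul_m21 (a b : T) : (a * b).m21 = a.d2 * b.m21 + a.m21 * b.d1 := rfl
@[simp] theorem mul_m22 (a b : T) : (a * b).m22 = a.d2 * b.m22 + a.m22 * b.d2 := rfl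
@[simp] theorem add_d1 (a b : T) : (a + b).d1 = a.d1 + b.d1 := rfl
@[simp] theorem add_d2 (a b : T) : (a + b).d2 = a.d2 + b.d2 := rfl
@[simp] theorem add_m11 (a b : T) : (a + b).m11 = a.m11 + b.m11 := rfl
@[simp] theorem add_m12 (a b : T) : (a + b).m12 = a.m12 + b.m12 := rfl
@[simp] theorem add_m21 (a b : T) : (a + b).m21 = a.m21 + b.m21 := rfl
@[simp] theorem add_m22 (a b : T) : (a + b).m22 = a.m22 + b.m22 := rfl
@[simp] theorem neg_d1 (a : T) : (-a).d1 = -a.d1 := rfl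
@[simp] theorem neg_d2 (a : T) : (-a).d2 = -a.d2 := rfl
@[simp] theorem neg_m11 (a : T) : (-a).m11 = -a.m11 := rfl
@[simp] theorem neg_m12 (a : T) : (-a).m12 = -a.m12 := rfl
@[simp] theorem neg_m21 (a : T) : (-a).m21 = -a.m21 := rfl
@[simp] theorem neg_m22 (a : T) : (-a).m22 = -a.m22 := rfl
@[simp] theorem zero_d1 : (0 : T).d1 = 0 := rfl
@[simp] theorem zero_d2 : (0 : T).d2 = 0 := rfl
@[simp] theorem zero_m11 : (0 : T).m11 = 0 := rfl
@[simp] theorem zero_m12 : (0 : T).m12 = 0 := rfl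
@[simp] theorem zero_m21 : (0 : T).m21 = 0 := rfl
@[simp] theorem zero_m22 : (0 : T).m22 = 0 := rfl
@[simp] theorem one_d1 : (1 : T).d1 = 1 := rfl
@[simp] theorem one_d2 : (1 : T).d2 = 1 := rfl
@[simp] theorem one_m11 : (1 : T).m11 = 0 := rfl
@[simp] theorem one_m12 : (1 : T).m12 = 0 := rfl
@[simp] theorem one_m21 : (1 : T).m21 = 0 := rfl
@[simp] theorem one_m22 : (1 : T).m22 = 0 := rfl

instance : Ring T where
  add_assoc a b c := by ext <;> simp <;> ring
  zero_add a := by ext <;> simp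
  add_zero a := by ext <;> simp
  add_comm a b := by ext <;> simp <;> ring
  neg_add_cancel a := by ext <;> simp [CharTwo.add_self_eq_zero]
  mul_assoc a b c := by ext <;> simp <;> ring
  one_mul a := by ext <;> simp
  mul_one a := by ext <;> simp
  left_distrib a b c := by ext <;> simp <;> ring
  right_distrib a b c := by ext <;> simp <;> ring
  zero_mul a := by ext <;> simp
  mul_zero a := by ext <;> simp
  nsmul := nsmulRec
  zsmul := zsmulRec

instance : Finite T :=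
  Finite.of_injective (fun a : T => (a.d1, a.d2, a.m11, a.m12, a.m21, a.m22)) (by
    intro a b h
    simp only [Prod.mk.injEq] at h
    obtain ⟨h1, h2, h3, h4, h5, h6⟩ := h
    exact T.ext h1 h2 h3 h4 h5 h6)

/-- Conjugation by the permutation matrix that exchanges the two coordinates. -/
def swap : T ≃+* T where
  toFun a := ⟨a.d2, a.d1, a.m22, a.m21, a.m12, a.m11⟩
  invFun a := ⟨a.d2, a.d1, a.m22, a.m21, a.m12, a.m11⟩
  left_inv _ := rfl
  right_inv _ := rfl
  map_mul' a b := by ext <;> simp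
  map_add' a b := by ext <;> simp

/-- `N i` for `i = 1` is the set of matrices with second row zero. -/
def N1 : Submodule Tᵐᵒᵖ T where
  carrier := {a | a.d2 = 0 ∧ a.m21 = 0 ∧ a.m22 = 0}
  add_mem' := by rintro a b ⟨h1, h2, h3⟩ ⟨k1, k2, k3⟩; simp [h1, h2, h3, k1, k2, k3]
  zero_mem' := by simp
  smul_mem' := by
    rintro r a ⟨h1, h2, h3⟩
    change (a * r.unop).d2 = 0 ∧ (a * r.unop).m21 = 0 ∧ (a * r.unop).m22 = 0
    simp [h1, h2, h3]

/-- The set of matrices with first row zero. -/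
def N2 : Submodule Tᵐᵒᵖ T where
  carrier := {a | a.d1 = 0 ∧ a.m11 = 0 ∧ a.m12 = 0}
  add_mem' := by rintro a b ⟨h1, h2, h3⟩ ⟨k1, k2, k3⟩; simp [h1, h2, h3, k1, k2, k3]
  zero_mem' := by simp
  smul_mem' := by
    rintro r a ⟨h1, h2, h3⟩
    change (a * r.unop).d1 = 0 ∧ (a * r.unop).m11 = 0 ∧ (a * r.unop).m12 = 0
    simp [h1, h2, h3]

theorem dist1 : IsDistributiveModule Tᵐᵒᵖ N1 := by
  apply of_criterion
  rintro ⟨u, hu1, hu2, hu3⟩ ⟨v, hv1, hv2, hv3⟩
  have two : ∀ z : ZMod 2, z = 0 ∨ z = 1 := by decide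
  obtain ⟨r, s, hrs, ⟨w, hw⟩, ⟨w', hw'⟩⟩ : ∃ r s : T, r + s = 1 ∧ (∃ w, u * r = v * w) ∧
      ∃ w', v * s = u * w' := by
    rcases two u.d1 with h1 | h1
    · rcases two v.d1 with h2 | h2
      · refine ⟨⟨v.m11, v.m12, 0, 0, 0, 0⟩, ⟨1 - v.m11, 1 - v.m12, 0, 0, 0, 0⟩, ?_,
          ⟨⟨u.m11, u.m12, 0, 0, 0, 0⟩, ?_⟩, ⟨0, ?_⟩⟩
        · ext <;> simp
        · ext <;> simp [h1, h2, hu1, hu2, hu3, hv1, hv2, hv3] <;> ring
        · ext <;> simp [h1, h2, hu1, hu2, hu3, hv1, hv2, hv3]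
          · rcases two v.m11 with h | h <;> simp [h]
          · rcases two v.m12 with h | h <;> simp [h]
      · refine ⟨1, 0, by simp, ⟨⟨u.d1, 0, u.m11 - v.m11 * u.d1, u.m12, 0, 0⟩, ?_⟩, ⟨0, by simp⟩⟩
        ext <;> simp [h1, h2, hu1, hu2, hu3, hv1, hv2, hv3]
    · refine ⟨0, 1, by simp, ⟨0, by simp⟩, ⟨⟨v.d1, 0, v.m11 - u.m11 * v.d1, v.m12, 0, 0⟩, ?_⟩⟩
      ext <;> simp [h1, hu1, hu2, hu3, hv1, hv2, hv3]
  refine ⟨op r, op s, ?_, ⟨op w, Subtype.ext hw⟩, ⟨op w', Subtype.ext hw'⟩⟩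
  rw [← op_add, hrs]; rfl

theorem dist2 : IsDistributiveModule Tᵐᵒᵖ N2 := by
  apply of_criterion
  rintro ⟨u, hu1, hu2, hu3⟩ ⟨v, hv1, hv2, hv3⟩
  have two : ∀ z : ZMod 2, z = 0 ∨ z = 1 := by decide
  obtain ⟨r, s, hrs, ⟨w, hw⟩, ⟨w', hw'⟩⟩ : ∃ r s : T, r + s = 1 ∧ (∃ w, u * r = v * w) ∧
      ∃ w', v * s = u * w' := by
    rcases two u.d2 with h1 | h1
    · rcases two v.d2 with h2 | h2
      · refine ⟨⟨v.m21, v.m22, 0, 0, 0, 0⟩, ⟨1 - v.m21, 1 - v.m22, 0, 0, 0, 0⟩, ?_,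
          ⟨⟨u.m21, u.m22, 0, 0, 0, 0⟩, ?_⟩, ⟨0, ?_⟩⟩
        · ext <;> simp
        · ext <;> simp [h1, h2, hu1, hu2, hu3, hv1, hv2, hv3] <;> ring
        · ext <;> simp [h1, h2, hu1, hu2, hu3, hv1, hv2, hv3]
          · rcases two v.m21 with h | h <;> simp [h]
          · rcases two v.m22 with h | h <;> simp [h]
      · refine ⟨1, 0, by simp, ⟨⟨0, u.d2, 0, 0, u.m21, u.m22 - v.m22 * u.d2⟩, ?_⟩, ⟨0, by simp⟩⟩
        ext <;> simp [h1, h2, hu1, hu2, hu3, hv1, hv2, hv3]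
    · refine ⟨0, 1, by simp, ⟨0, by simp⟩, ⟨⟨0, v.d2, 0, 0, v.m21, v.m22 - u.m22 * v.d2⟩, ?_⟩⟩
      ext <;> simp [h1, hu1, hu2, hu3, hv1, hv2, hv3]
  refine ⟨op r, op s, ?_, ⟨op w, Subtype.ext hw⟩, ⟨op w', Subtype.ext hw'⟩⟩
  rw [← op_add, hrs]; rfl

theorem disj : Disjoint N1 N2 := by
  rw [Submodule.disjoint_def]
  rintro a ⟨h1, h2, h3⟩ ⟨k1, k2, k3⟩
  ext <;> simp [h1, h2, h3, k1, k2, k3]

theorem semidistributive : RightSemidistributive T := by
  refine ⟨{N1, N2}, ?_, ?_, ?_⟩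
  · rw [sSupIndep_pair]
    · exact disj
    · intro h
      have h1 : (⟨1, 0, 0, 0, 0, 0⟩ : T) ∈ N1 := ⟨rfl, rfl, rfl⟩
      rw [h] at h1
      exact one_ne_zero h1.1
  · rw [sSup_pair, eq_top_iff]
    intro a _
    have : a = ⟨a.d1, 0, a.m11, a.m12, 0, 0⟩ + ⟨0, a.d2, 0, 0, a.m21, a.m22⟩ := by
      ext <;> simp
    rw [this]
    exact Submodule.add_mem_sup ⟨rfl, rfl, rfl⟩ ⟨rfl, rfl, rfl⟩
  · rintro N (rfl | rfl)
    · exact dist1
    · exact dist2

/-- `ε`. -/
def eps : T := ⟨0, 0, 1, 0, 0, 1⟩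

/-- `ε P`. -/
def epsP : T := ⟨0, 0, 0, 1, 1, 0⟩

end T

open Q10 SkewLaurent

/-- The central element `ε` of the skew Laurent series ring. -/
def E : SkewLaurent T.swap := mono 0 T.eps

/-- The central element `ε P x` of the skew Laurent series ring. -/
def Z : SkewLaurent T.swap := mono 1 T.epsP

theorem E_comm (g : SkewLaurent T.swap) : g * E = E * g := by
  ext1
  funext n
  rw [E, coeff_mul_mono, coeff_mono_mul]
  have h : (T.swap ^ (n - 0)) T.eps = T.eps :=
    (zpow_iff T.swap (fun a => a = T.eps) (fun a => by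
      constructor
      · intro h; rw [← T.swap.symm_apply_apply a, h]; rfl
      · rintro rfl; rfl) _ _).mpr rfl
  rw [h]
  ext <;> simp [T.eps]

theorem Z_comm (g : SkewLaurent T.swap) : g * Z = Z * g := by
  ext1
  funext n
  rw [Z, coeff_mul_mono, coeff_mono_mul]
  have h : (T.swap ^ (n - 1)) T.epsP = T.epsP :=
    (zpow_iff T.swap (fun a => a = T.epsP) (fun a => by
      constructor
      · intro h; rw [← T.swap.symm_apply_apply a, h]; rfl
      · rintro rfl; rfl) _ _).mpr rfl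
  rw [h, zpow_one]
  ext <;> simp [T.epsP, T.swap]

theorem not_semidistributive : ¬ RightSemidistributive (SkewLaurent T.swap) := by
  intro h
  have : Nontrivial (SkewLaurent T.swap) := ⟨⟨0, 1, fun h => by
    have := congrArg (fun f : SkewLaurent T.swap => (f.coeff 0).d1) h
    simp [coeff_one] at this⟩⟩
  obtain ⟨N, hN, g, hgN, hg0, hgg⟩ := exists_idem h
  have hu : g * E ∈ N := N.smul_mem (op E) hgN
  have hv : g * Z ∈ N := N.smul_mem (op Z) hgN
  obtain ⟨r, s, hrs, ⟨w, hw⟩, ⟨w', hw'⟩⟩ := criterion hN ⟨_, hu⟩ ⟨_, hv⟩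
  have hw1 : g * E * r.unop = g * Z * w.unop := congrArg Subtype.val hw
  have hw2 : g * Z * s.unop = g * E * w'.unop := congrArg Subtype.val hw'
  have hrs' : r.unop + s.unop = 1 := by
    have := congrArg unop hrs
    simpa using this
  rw [E_comm, Z_comm, mul_assoc, mul_assoc] at hw1 hw2
  have hr : ∀ n, ((g * r.unop).coeff n).d1 = 0 ∧ ((g * r.unop).coeff n).d2 = 0 := by
    intro n
    have h1 := congrArg (fun f : SkewLaurent T.swap => f.coeff n) hw1
    simp only [E, Z, coeff_mono_mul, zpow_zero, sub_zero, zpow_one] at h1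
    constructor
    · have h2 := congrArg T.m11 h1
      simpa [T.eps, T.epsP] using h2
    · have h2 := congrArg T.m22 h1
      simpa [T.eps, T.epsP] using h2
  have hs : ∀ n, ((g * s.unop).coeff n).d1 = 0 ∧ ((g * s.unop).coeff n).d2 = 0 := by
    intro n
    have h1 := congrArg (fun f : SkewLaurent T.swap => f.coeff (n + 1)) hw2
    simp only [E, Z, coeff_mono_mul, zpow_zero, sub_zero, zpow_one, add_sub_cancel_right] at h1
    constructor
    · have h2 := congrArg T.m12 h1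
      simpa [T.eps, T.epsP, T.swap] using h2
    · have h2 := congrArg T.m21 h1
      simpa [T.eps, T.epsP, T.swap] using h2
  have hg : ∀ n, (g.coeff n).d1 = 0 ∧ (g.coeff n).d2 = 0 := by
    intro n
    have h1 : g = g * r.unop + g * s.unop := by rw [← mul_add, hrs', mul_one]
    have h2 := congrArg (fun f : SkewLaurent T.swap => f.coeff n) h1
    simp only [coeff_add] at h2
    rw [h2]
    simp [(hr n).1, (hr n).2, (hs n).1, (hs n).2]
  apply hg0
  rw [← hgg]
  ext1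
  funext n
  rw [coeff_mul, coeff_zero]
  apply finsum_eq_zero_of_forall_eq_zero
  intro i
  have h1 := (zpow_iff T.swap (fun a => a.d1 = 0 ∧ a.d2 = 0) (fun a => by
    change a.d2 = 0 ∧ a.d1 = 0 ↔ _
    exact and_comm) i (g.coeff (n - i))).mpr (hg (n - i))
  ext <;> simp [(hg i).1, (hg i).2, h1.1, h1.2]

/-- There are a right semidistributive right Artinian ring `A` (even a finite one) and an
automorphism `φ` of `A` such that the skew Laurent series ring `A((x, φ))` is not right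
semidistributive. -/
theorem result : ∃ (A : Type) (_ : Ring A) (φ : A ≃+* A), Finite A ∧ IsArtinian Aᵐᵒᵖ A ∧
    RightSemidistributive A ∧ ¬ RightSemidistributive (Q10.SkewLaurent φ) :=
  ⟨T, inferInstance, T.swap, inferInstance, inferInstance, T.semidistributive,
    not_semidistributive⟩

end Pool.Agent.Results.MP_d4f5ca_al.NotSemidistributive
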